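import Pool.Agent.W_4481e3_q87.GoR
import Pool.Agent.W_4481e3_tab.T8

/-!
Tree s03o8, data 6.
-/

namespace Pool.Agent.W_4481e3_rt.s03o8

open Pool.Agent.W_4481e3_q25.EvR

theorem k122 : ckO Pool.Agent.W_4481e3_tab.T8.tab 1144800 2220640 16777216 4194304 5931008 8388608 5 524288 524288 3670016 524288 516985008 524076173 1955254 1874160 268407440 268447987 16777216 16777216 8472495 8472495 0x103000c03000c03000c1203000c03000c03000c203000c04000c2121 = true := by decide +kernel

theorem k127 : ckO Pool.Agent.W_4481e3_tab.T8.tab 1144800 2220640 16777216 4194304 5931008 8388608 15 524288 524288 3670016 524288 511768002 529698652 3586130 7172260 268435456 268435456 16777216 16777216 8472495 8472495 0x102000c02000c02000c03000c21203000c03000c103000c03000c05029c205029c05029c21203000c03000c04000c1203000c03000c05000c04000c05000c05000c121204000c04000c106000c06000c1212105070c05070c05070c2105029c05070c05029c2828fd7a04171206000c06000c206000c06000c06000c2107000c07000c07000c212106000c06000c07000c1206000c07000c207000c07000c282f497a55f7107000cb2b12121282a117a621712103000c04000c204000c04000c05070c2104000c04000c204000c04000c05070c105000c06000c12104000c04000c04000c04000c21204000c0404fc2306000c06000c21212104000c04000c204000c04000c204000c06000c104000c06000c1206000c06000c106000cbb212104000c06000c104000c06000c1206000c06000c2b107000cb1212104000c04000c204000c06000c105000c207000cb106000cb12104000c04000c206000c06000c212121801e4780827205029c05029c05070c1205029c05029c106000c05029c06000c212106000c06000c206000c06000c2106000c06000c07000c1206000cb1b2128164a78453706000cb2b1b21281de678c04705029c05029c205070c06000c2106000cb2b1206000cb1b2b1b21b21bb2b1bb12b1bbb2b12b12bb2121280dda7a6037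 = true := by decide +kernel

theorem k129 : ckO Pool.Agent.W_4481e3_tab.T8.tab 1144800 2220640 16777216 4194304 5931008 8388608 5 524288 524288 3670016 524288 515354132 515354132 7172260 7172260 268435456 268435456 16777216 16777216 8472495 8472495 0x102000c02000c02000c1202000c02000c03000c202000c03000c2121 = true := by decide +kernel

theorem k132 : ckO Pool.Agent.W_4481e3_tab.T8.tab 1144800 2220640 16777216 4194304 5931008 8388608 5 524288 524288 3670016 524288 522526392 493837352 14344520 14344520 268435456 268435456 16777216 16777216 8472495 8472495 0x100000c00000c01000c201000c02000c21201001c01007c01003c121 = true := by decide +kernel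

theorem k134 : ckO Pool.Agent.W_4481e3_tab.T8.tab 1144800 2220640 16777216 4194304 5931008 8388608 8 524288 524288 3670016 524288 493837352 508181872 14344520 28689040 268435456 268435456 16777216 16777216 8472495 8472495 0x100000c00000c00000c00000c00000c02000c12100000c00000c200000c00000c202000c02000c2102000c02000c203000c04000c2121212 = true := by decide +kernel

end Pool.Agent.W_4481e3_rt.s03o8
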